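import Pool.Agent.Helper39.Uct.Goals2

/-!
# ST, MT: one step of the structure theorem and the structure theorem
-/

open scoped ComplexOrder

namespace Pool.Agent.Helper90.Uct

open Pool.Agent.Helper39.Uct Pool.Agent.Helper39.Uct.Fib

/-- Commuting sets have commuting closed spans. -/
theorem span_comm {B : Type} [NonUnitalCStarAlgebra B] {S T : Set B}
    (h : ∀ x ∈ S, ∀ y ∈ T, x * y = y * x) :
    ∀ x ∈ closure (Submodule.span ℂ S : Set B), ∀ y ∈ closure (Submodule.span ℂ T : Set B),
      x * y = y * x := by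
  have h1 : ∀ x ∈ S, ∀ y ∈ Submodule.span ℂ T, x * y = y * x := by
    intro x hx y hy
    induction hy using Submodule.span_induction with
    | mem y hy => exact h x hx y hy
    | zero => simp
    | add y z _ _ h1 h2 => rw [mul_add, add_mul, h1, h2]
    | smul c y _ h1 => rw [mul_smul_comm, smul_mul_assoc, h1]
  have h2 : ∀ x ∈ Submodule.span ℂ S, ∀ y ∈ Submodule.span ℂ T, x * y = y * x := by
    intro x hx y hy
    induction hx using Submodule.span_induction with
    | mem x hx => exact h1 x hx y hy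
    | zero => simp
    | add x z _ _ h1 h2 => rw [mul_add, add_mul, h1, h2]
    | smul c x _ h1 => rw [mul_smul_comm, smul_mul_assoc, h1]
  have h3 : ∀ x ∈ closure (Submodule.span ℂ S : Set B), ∀ y ∈ Submodule.span ℂ T,
      x * y = y * x := by
    intro x hx y hy
    have hc : IsClosed {x : B | x * y = y * x} :=
      isClosed_eq (continuous_id.mul continuous_const) (continuous_const.mul continuous_id)
    exact closure_minimal (fun x hx => h2 x hx y hy) hc hx
  intro x hx y hy
  have hc : IsClosed {y : B | x * y = y * x} :=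
    isClosed_eq (continuous_const.mul continuous_id) (continuous_id.mul continuous_const)
  exact closure_minimal (fun y hy => h3 x hx y hy) hc hy

theorem st (hsel : S_SEL) (hfp : S_FP) (hap : S_AP) (hrg : S_RG) (hht : S_HT) : S_ST := by
  intro Q _ hQ ih B _ G hG hB
  have hReg : Reg G → Good B := by
    rintro ⟨e, M, K, hKM, hK, hn, hes, he0, hout, hin, hcomm⟩
    haveI hnorm : (K.subgroupOf M).Normal := by
      refine ⟨fun k hk g => ?_⟩
      rw [Subgroup.mem_subgroupOf] at hk ⊢
      exact hn g.1 g.2 _ hk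
    have hK' : K.subgroupOf M ≠ ⊥ := by
      intro h
      apply hK
      rw [eq_bot_iff]
      intro k hk
      have : (⟨k, hKM hk⟩ : M) ∈ K.subgroupOf M := by
        rw [Subgroup.mem_subgroupOf]
        exact hk
      rw [h, Subgroup.mem_bot] at this
      rw [Subgroup.mem_bot]
      exact congrArg Subtype.val this
    obtain ⟨H, instH, ι, hher, hnt, -, G', hG'⟩ :=
      hrg Q B G M (M ⧸ K.subgroupOf M) (QuotientGroup.mk' (K.subgroupOf M)) e hes he0 hout (by
        refine Submodule.topologicalClosure_mono ?_ hin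
        refine iSup_le fun k => ?_
        have hk : (⟨(k : Q), hKM k.2⟩ : M) ∈ (QuotientGroup.mk' (K.subgroupOf M)).ker := by
          rw [QuotientGroup.ker_mk', Subgroup.mem_subgroupOf]
          exact k.2
        exact le_iSup (fun k : (QuotientGroup.mk' (K.subgroupOf M)).ker => G.fib ((k : M) : Q))
          ⟨⟨(k : Q), hKM k.2⟩, hk⟩)
    have hcomm' : G'.Comm := by
      intro x hx y hy
      rw [hG'] at hx hy
      apply hher.1
      rw [map_mul, map_mul]
      refine span_comm ?_ _ hx _ hy
      rintro _ ⟨q, hq, b, hb, rfl⟩ _ ⟨q', hq', b', hb', rfl⟩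
      have h1 : (q : Q) ∈ K := by
        rw [← Subgroup.mem_subgroupOf, ← QuotientGroup.eq_one_iff]
        exact hq
      have h2 : (q' : Q) ∈ K := by
        rw [← Subgroup.mem_subgroupOf, ← QuotientGroup.eq_one_iff]
        exact hq'
      exact hcomm _ h1 _ h2 b hb b' hb'
    obtain ⟨H₁, instH₁, ι₁, hher₁, hnt₁, Q₁, instQ₁, hQ₁, G₁, hc₁, ht₁⟩ :=
      ih M (K.subgroupOf M) hK' H G' hcomm' hnt
    exact ⟨H₁, instH₁, ι.comp ι₁, hht H₁ H B ι₁ ι hher₁ hher, hnt₁, Q₁, instQ₁, hQ₁, G₁, hc₁, ht₁⟩
  rcases hsel Q B G hQ hG hB with h | h | h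
  · obtain ⟨d, hd, hds, hd0, htop⟩ := h
    obtain ⟨H, instH, ι, hher, hnt, -, G', hG'⟩ :=
      hrg Q B G ⊤ Q (⊤ : Subgroup Q).subtype d hds hd0 (fun q hq => absurd (Subgroup.mem_top q) hq) (by
        apply Submodule.le_topologicalClosure
        have := le_iSup (fun k : ((⊤ : Subgroup Q).subtype).ker =>
          G.fib ((k : (⊤ : Subgroup Q)) : Q)) 1
        exact this hd)
    have hfib : ∀ (t : Q) (h : H), h ∈ G'.fib t → ι h ∈ closure {x | ∃ y ∈ G.fib t, x = d * y * d} := by
      intro t h hh
      rw [hG'] at hh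
      refine closure_mono ?_ hh
      intro x hx
      have hx' : x ∈ Submodule.span ℂ {x | ∃ q : (⊤ : Subgroup Q), (⊤ : Subgroup Q).subtype q = t ∧
        ∃ b ∈ G.fib (q : Q), x = d * b * d} := hx
      clear hx
      induction hx' using Submodule.span_induction with
      | mem x hx =>
        obtain ⟨q, hq, b, hb, rfl⟩ := hx
        have hq' : (q : Q) = t := hq
        exact ⟨b, hq' ▸ hb, rfl⟩
      | zero => exact ⟨0, Submodule.zero_mem _, by simp⟩
      | add x y _ _ h1 h2 =>
        obtain ⟨b, hb, rfl⟩ := h1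
        obtain ⟨b', hb', rfl⟩ := h2
        exact ⟨b + b', Submodule.add_mem _ hb hb', by rw [mul_add, add_mul]⟩
      | smul c x _ h1 =>
        obtain ⟨b, hb, rfl⟩ := h1
        exact ⟨c • b, Submodule.smul_mem _ c hb, by rw [mul_smul_comm, smul_mul_assoc]⟩
    refine ⟨H, instH, ι, hher, hnt, Q, inferInstance, hQ, G', ?_, ?_⟩
    · intro x hx y hy
      have hsub : closure {x | ∃ y ∈ G.fib 1, x = d * y * d} ⊆ (G.fib 1 : Set B) := by
        refine closure_minimal ?_ (G.closed 1)
        rintro _ ⟨y, hy, rfl⟩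
        have h1 := G.mul_mem 1 1 d y hd hy
        have h2 := G.mul_mem (1 * 1) 1 (d * y) d h1 hd
        simpa using h2
      apply hher.1
      rw [map_mul, map_mul]
      exact hG _ (hsub (hfib 1 x hx)) _ (hsub (hfib 1 y hy))
    · intro s b hb hs
      have h1 := htop s (fun q => ι (b q)) (fun q hq => hfib q _ (hb q hq)) hs
      rw [← map_sum, NonUnitalStarAlgHom.norm_map ι hher.1, NonUnitalStarAlgHom.norm_map ι hher.1] at h1
      exact h1
  · exact hReg (hfp Q B G hG h)
  · exact hReg (hap Q B G hG h)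

/-- Transport of a weak grading along an isomorphism. -/
def transport {Q Q' : Type} [Group Q] [Group Q'] (e : Q ≃* Q') {B : Type}
    [NonUnitalCStarAlgebra B] (G : Fib Q' B) : Fib Q B where
  fib q := G.fib (e q)
  closed q := G.closed (e q)
  mul_mem p q x y hx hy := by
    rw [map_mul]
    exact G.mul_mem _ _ _ _ hx hy
  star_mem q x hx := by
    rw [map_inv]
    exact G.star_mem _ _ hx
  dense := by
    have : (⨆ q, G.fib (e q)) = ⨆ q, G.fib q := e.toEquiv.iSup_comp (g := fun q => G.fib q)
    rw [this]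
    exact G.dense

theorem mt (hst : S_ST) (hgi : S_GI) : S_MT := by
  intro Q _ hQ
  refine hgi (fun Q _ => ∀ (B : Type) [NonUnitalCStarAlgebra B] (G : Fib Q B), G.Comm →
    Nontrivial B → Good B) ?_ ?_ Q hQ
  · intro Q Q' _ _ e hP B _ G hG hB
    refine hP B (transport e G) ?_ hB
    intro x hx y hy
    have h1 : x ∈ G.fib 1 := by
      have : x ∈ G.fib (e 1) := hx
      rwa [map_one] at this
    have h2 : y ∈ G.fib 1 := by
      have : y ∈ G.fib (e 1) := hy
      rwa [map_one] at this
    exact hG x h1 y h2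
  · intro Q _ hQ ih B _ G hG hB
    exact hst Q hQ (fun M K _ hK B _ G hG hB => ih M K hK B G hG hB) B G hG hB

end Pool.Agent.Helper90.Uct
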