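import Pool.Agent.Helper39.Uct.Goals2

/-!
# ZORN: transfinite composition series

If every nonzero separable algebra with a quotient-closed property has a nonzero closed
two-sided ideal in a class closed under extensions and increasing unions, then every separable
algebra with the property lies in the class.
-/

open scoped ComplexOrder

namespace Pool.Agent.Helper90.Uct

open Pool.Agent.Helper39.Uct Pool.Agent.Helper39.Uct.Fib

/-- A closed self-adjoint two-sided ideal. -/
structure Idl {A : Type} [NonUnitalCStarAlgebra A] (I : Submodule ℂ A) : Prop where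
  closed : IsClosed (I : Set A)
  mul : ∀ x ∈ I, ∀ b, b * x ∈ I ∧ x * b ∈ I
  star : ∀ x ∈ I, Star.star x ∈ I

/-- The subalgebra underlying an ideal. -/
def Idl.sub {A : Type} [NonUnitalCStarAlgebra A] {I : Submodule ℂ A} (h : Idl I) :
    NonUnitalStarSubalgebra ℂ A where
  carrier := I
  add_mem' ha hb := I.add_mem ha hb
  zero_mem' := I.zero_mem
  mul_mem' {a b} _ hb := (h.mul b hb a).1
  smul_mem' c x hx := I.smul_mem c hx
  star_mem' {a} ha := h.star a ha

theorem Idl.sub_closed {A : Type} [NonUnitalCStarAlgebra A] {I : Submodule ℂ A} (h : Idl I) :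
    IsClosed (h.sub : Set A) := h.closed

/-- The ideal `I` is (the image of) an algebra in the class. -/
def Cls (𝒞 : ∀ (A : Type) [NonUnitalCStarAlgebra A], Prop) {A : Type} [NonUnitalCStarAlgebra A]
    (I : Submodule ℂ A) : Prop :=
  ∃ (J : Type) (_ : NonUnitalCStarAlgebra J) (ι : J →⋆ₙₐ[ℂ] A),
    Function.Injective ι ∧ Set.range ι = (I : Set A) ∧ 𝒞 J

theorem cont {A B : Type} [NonUnitalCStarAlgebra A] [NonUnitalCStarAlgebra B]
    (f : A →⋆ₙₐ[ℂ] B) : Continuous f := by
  refine AddMonoidHomClass.continuous_of_bound f 1 fun x => ?_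
  rw [one_mul]
  exact NonUnitalStarAlgHom.norm_apply_le f x

/-- The zero algebra lies in the class. -/
theorem cls_zero {𝒞 : ∀ (A : Type) [NonUnitalCStarAlgebra A], Prop} (h𝒞 : UctLike 𝒞)
    (A : Type) [NonUnitalCStarAlgebra A] [Subsingleton A] : 𝒞 A := by
  haveI : TopologicalSpace.SeparableSpace A :=
    ⟨⟨Set.univ, Set.subsingleton_univ.countable, dense_univ⟩⟩
  have hV : VPC Unit := by
    refine ⟨fun H => ?_, ⊤, inferInstance, ?_⟩
    · exact ⟨Set.Finite.toFinset (Set.toFinite (H : Set Unit)), by simp⟩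
    · infer_instance
  refine h𝒞.graded A Unit hV
    { fib := fun _ => ⊤
      closed := fun _ => by simp
      mul_mem := fun _ _ _ _ _ _ => by simp
      star_mem := fun _ _ _ => by simp
      dense := by
        ext x
        simp [Subsingleton.elim x 0] } ?_ ?_
  · intro x _ y _
    exact Subsingleton.elim _ _
  · intro s b _ _
    rw [Subsingleton.elim (b 1) 0]
    simp

/-- Increasing unions along chains. -/
theorem cls_chain {𝒞 : ∀ (A : Type) [NonUnitalCStarAlgebra A], Prop} (h𝒞 : UctLike 𝒞)
    {A : Type} [NonUnitalCStarAlgebra A] [TopologicalSpace.SeparableSpace A]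
    (c : Set (Submodule ℂ A)) (hc : ∀ I ∈ c, Idl I ∧ Cls 𝒞 I)
    (hch : IsChain (· ≤ ·) c) (hne : c.Nonempty) :
    ∃ U : Submodule ℂ A, (Idl U ∧ Cls 𝒞 U) ∧ ∀ z ∈ c, z ≤ U := by
  classical
  have hdir : DirectedOn (· ≤ ·) c := hch.directedOn
  -- the union
  set V : Submodule ℂ A := sSup c with hV
  have hmemV : ∀ x, x ∈ V ↔ ∃ I ∈ c, x ∈ I := fun x =>
    Submodule.mem_sSup_of_directed hne hdir
  set U : Submodule ℂ A := V.topologicalClosure with hU
  have hUset : (U : Set A) = closure (V : Set A) := Submodule.topologicalClosure_coe V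
  have hIdl : Idl U := by
    refine ⟨V.isClosed_topologicalClosure, ?_, ?_⟩
    · intro x hx b
      have hx' : x ∈ closure (V : Set A) := hUset ▸ hx
      constructor
      · have : b * x ∈ closure (V : Set A) := by
          refine map_mem_closure (f := fun y => b * y) (continuous_const.mul continuous_id) hx' ?_
          intro y hy
          obtain ⟨I, hI, hyI⟩ := (hmemV y).1 hy
          exact (hmemV _).2 ⟨I, hI, ((hc I hI).1.mul y hyI b).1⟩
        exact hUset.ge this
      · have : x * b ∈ closure (V : Set A) := by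
          refine map_mem_closure (f := fun y => y * b) (continuous_id.mul continuous_const) hx' ?_
          intro y hy
          obtain ⟨I, hI, hyI⟩ := (hmemV y).1 hy
          exact (hmemV _).2 ⟨I, hI, ((hc I hI).1.mul y hyI b).2⟩
        exact hUset.ge this
    · intro x hx
      have hx' : x ∈ closure (V : Set A) := hUset ▸ hx
      have : star x ∈ closure (V : Set A) := by
        refine map_mem_closure (f := fun y => star y) continuous_star hx' ?_
        intro y hy
        obtain ⟨I, hI, hyI⟩ := (hmemV y).1 hy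
        exact (hmemV _).2 ⟨I, hI, (hc I hI).1.star y hyI⟩
      exact hUset.ge this
  refine ⟨U, ⟨hIdl, ?_⟩, fun z hz => (le_sSup hz).trans V.le_topologicalClosure⟩
  -- a countable dense subset of the union
  haveI : SecondCountableTopology A := UniformSpace.secondCountable_of_separable A
  obtain ⟨x, hxd⟩ : ∃ x : ℕ → (V : Set A), DenseRange x := by
    haveI : Nonempty (V : Set A) := ⟨⟨0, V.zero_mem⟩⟩
    exact TopologicalSpace.exists_dense_seq (V : Set A)
  -- choose ideals
  have hch1 : ∀ n, ∃ I ∈ c, ((x n : (V : Set A)) : A) ∈ I := fun n => (hmemV _).1 (x n).2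
  choose K hKc hxK using hch1
  have hstep : ∀ I J : c, ∃ L : c, I.1 ≤ L.1 ∧ J.1 ≤ L.1 := by
    intro I J
    obtain ⟨L, hL, h1, h2⟩ := hdir I.1 I.2 J.1 J.2
    exact ⟨⟨L, hL⟩, h1, h2⟩
  choose mx hmx1 hmx2 using hstep
  let E : ℕ → c := fun n => Nat.rec ⟨K 0, hKc 0⟩ (fun n L => mx L ⟨K (n + 1), hKc (n + 1)⟩) n
  have hEmono : ∀ n, (E n).1 ≤ (E (n + 1)).1 := fun n => hmx1 _ _
  have hKE : ∀ n, K n ≤ (E n).1 := by
    intro n
    cases n with
    | zero => exact le_refl _
    | succ n => exact hmx2 (E n) ⟨K (n + 1), hKc (n + 1)⟩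
  -- the algebras
  have hcls : ∀ n, Cls 𝒞 (E n).1 := fun n => (hc _ (E n).2).2
  choose D instD ι hinj hrange hD using hcls
  letI := instD
  haveI hcl : IsClosed ((hIdl.sub : NonUnitalStarSubalgebra ℂ A) : Set A) := hIdl.sub_closed
  letI : NonUnitalCStarAlgebra hIdl.sub := NonUnitalStarSubalgebra.nonUnitalCStarAlgebra _
  have hEU : ∀ n, (E n).1 ≤ U := fun n => (le_sSup (E n).2).trans V.le_topologicalClosure
  have hmem : ∀ n (y : D n), ι n y ∈ hIdl.sub := by
    intro n y
    have : ι n y ∈ ((E n).1 : Set A) := by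
      rw [← hrange n]
      exact ⟨y, rfl⟩
    exact hEU n this
  let j : ∀ n, D n →⋆ₙₐ[ℂ] hIdl.sub := fun n => NonUnitalStarAlgHom.codRestrict (ι n) _ (hmem n)
  haveI : TopologicalSpace.SeparableSpace hIdl.sub := by
    haveI : SecondCountableTopology hIdl.sub :=
      TopologicalSpace.Subtype.secondCountableTopology _
    infer_instance
  refine ⟨hIdl.sub, inferInstance, NonUnitalStarSubalgebraClass.subtype hIdl.sub, ?_, ?_, ?_⟩
  · exact Subtype.val_injective
  · ext y
    constructor
    · rintro ⟨z, rfl⟩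
      exact z.2
    · intro hy
      exact ⟨⟨y, hy⟩, rfl⟩
  · refine h𝒞.union hIdl.sub D j ?_ ?_ ?_ hD
    · intro n
      exact (NonUnitalStarAlgHom.injective_codRestrict (ι n) hIdl.sub (hmem n)).2 (hinj n)
    · rintro n _ ⟨y, rfl⟩
      have h1 : ι n y ∈ ((E (n + 1)).1 : Set A) := by
        apply hEmono n
        have : ι n y ∈ ((E n).1 : Set A) := by
          rw [← hrange n]
          exact ⟨y, rfl⟩
        exact this
      rw [← hrange (n + 1)] at h1
      obtain ⟨z, hz⟩ := h1
      exact ⟨z, Subtype.ext hz⟩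
    · -- density
      rw [dense_iff_closure_eq, Set.eq_univ_iff_forall]
      intro y
      rw [closure_subtype]
      have hy : (y : A) ∈ closure (V : Set A) := hUset ▸ y.2
      have h2 : (V : Set A) ⊆ closure (Set.range fun n => ((x n : (V : Set A)) : A)) := by
        intro v hv
        have := hxd ⟨v, hv⟩
        rw [closure_subtype] at this
        convert this using 2
        ext t
        simp
      have h3 : (y : A) ∈ closure (Set.range fun n => ((x n : (V : Set A)) : A)) :=
        (closure_minimal h2 isClosed_closure) hy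
      refine closure_mono ?_ h3
      rintro _ ⟨n, rfl⟩
      have h4 : ((x n : (V : Set A)) : A) ∈ ((E n).1 : Set A) := hKE n (hxK n)
      rw [← hrange n] at h4
      obtain ⟨z, hz⟩ := h4
      refine ⟨j n z, Set.mem_iUnion.2 ⟨n, ⟨z, rfl⟩⟩, hz⟩

theorem zorn (hqt : S_QT) : S_ZORN := by
  intro 𝒞 PP h𝒞 hPPq hPPi A _ _ hPA
  classical
  obtain ⟨J, hJ⟩ : ∃ J : Submodule ℂ A, Maximal (fun I => I ∈ {I : Submodule ℂ A | Idl I ∧ Cls 𝒞 I}) J := by
    refine zorn_le₀ {I : Submodule ℂ A | Idl I ∧ Cls 𝒞 I} ?_
    intro c hc hch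
    rcases c.eq_empty_or_nonempty with rfl | hne
    · refine ⟨⊥, ⟨⟨?_, ?_, ?_⟩, ?_⟩, by simp⟩
      · simp
      · intro x hx b
        rw [Submodule.mem_bot] at hx
        simp [hx]
      · intro x hx
        rw [Submodule.mem_bot] at hx
        simp [hx]
      · refine ⟨Fin 0 → ℂ, inferInstance, 0, ?_, ?_, cls_zero h𝒞 _⟩
        · intro a b _
          exact Subsingleton.elim _ _
        · ext y
          simp [eq_comm]
    · obtain ⟨U, hU, hle⟩ := cls_chain h𝒞 c (fun I hI => hc hI) hch hne
      exact ⟨U, hU, hle⟩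
  obtain ⟨⟨hJI, K, instK, ιK, hKinj, hKr, hKC⟩, hmax⟩ := hJ
  obtain ⟨B', instB', π, hπs, hπk⟩ := hqt A J hJI.closed hJI.mul hJI.star
  have hex : ∀ a : A, π a = 0 ↔ a ∈ Set.range ιK := by
    intro a
    rw [hπk, hKr]
    rfl
  rcases subsingleton_or_nontrivial B' with hss | hnt
  · exact h𝒞.ext K A B' ιK π hKinj hπs hex hKC (cls_zero h𝒞 B')
  · exfalso
    haveI : TopologicalSpace.SeparableSpace B' :=
      hπs.denseRange.separableSpace (cont π)
    obtain ⟨J', instJ', ι', ⟨hι'inj, hι'id⟩, hJ'nt, hJ'C⟩ := hPPi B' (hPPq A B' π hπs hPA) hnt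
    have hclr : IsClosed (Set.range ι') :=
      (NonUnitalStarAlgHom.isometry ι' hι'inj).isClosedEmbedding.isClosed_range
    -- the preimage
    let W : Submodule ℂ A :=
      { carrier := {a | π a ∈ Set.range ι'}
        add_mem' := by
          rintro a b ⟨x, hx⟩ ⟨y, hy⟩
          exact ⟨x + y, by rw [map_add, map_add, hx, hy]⟩
        zero_mem' := ⟨0, by rw [map_zero, map_zero]⟩
        smul_mem' := by
          rintro c a ⟨x, hx⟩
          exact ⟨c • x, by rw [map_smul, map_smul, hx]⟩ }
    have hWmem : ∀ a, a ∈ W ↔ π a ∈ Set.range ι' := fun a => Iff.rfl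
    have hWI : Idl W := by
      refine ⟨hclr.preimage (cont π), ?_, ?_⟩
      · rintro a ⟨x, hx⟩ b
        have := hι'id x (π b)
        constructor
        · rw [hWmem, map_mul, ← hx]
          exact this.1
        · rw [hWmem, map_mul, ← hx]
          exact this.2
      · rintro a ⟨x, hx⟩
        exact ⟨star x, by rw [map_star, map_star, hx]⟩
    have hJW : J ≤ W := by
      intro a ha
      exact ⟨0, by rw [map_zero, (hπk a).2 ha]⟩
    haveI hcl : IsClosed ((hWI.sub : NonUnitalStarSubalgebra ℂ A) : Set A) := hWI.sub_closed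
    letI : NonUnitalCStarAlgebra hWI.sub := NonUnitalStarSubalgebra.nonUnitalCStarAlgebra _
    have hKW : ∀ y : K, ιK y ∈ hWI.sub := by
      intro y
      have : ιK y ∈ (J : Set A) := by
        rw [← hKr]
        exact ⟨y, rfl⟩
      exact hJW this
    haveI : TopologicalSpace.SeparableSpace hWI.sub := by
      haveI : SecondCountableTopology A := UniformSpace.secondCountable_of_separable A
      haveI : SecondCountableTopology hWI.sub :=
        TopologicalSpace.Subtype.secondCountableTopology _
      infer_instance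
    -- the map onto `J'`
    have hpre : ∀ a : hWI.sub, ∃ z : J', ι' z = π (a : A) := fun a => a.2
    choose g hg using hpre
    let ρ : hWI.sub →⋆ₙₐ[ℂ] J' :=
      { toFun := g
        map_smul' := fun c a => hι'inj (by
          rw [hg]
          simp only [MonoidHom.id_apply, map_smul, hg]
          exact map_smul π c (a : A))
        map_zero' := hι'inj (by
          rw [hg, map_zero]
          exact map_zero π)
        map_add' := fun a b => hι'inj (by
          rw [hg, map_add, hg, hg]
          exact map_add π (a : A) b)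
        map_mul' := fun a b => hι'inj (by
          rw [hg, map_mul, hg, hg]
          exact map_mul π (a : A) b)
        map_star' := fun a => hι'inj (by
          rw [hg, map_star, hg]
          exact map_star π (a : A)) }
    have hρ : ∀ a : hWI.sub, ι' (ρ a) = π (a : A) := hg
    have hC : 𝒞 hWI.sub := by
      refine h𝒞.ext K hWI.sub J' (NonUnitalStarAlgHom.codRestrict ιK hWI.sub hKW) ρ ?_ ?_ ?_ hKC hJ'C
      · exact (NonUnitalStarAlgHom.injective_codRestrict ιK hWI.sub hKW).2 hKinj
      · intro z
        obtain ⟨a, ha⟩ := hπs (ι' z)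
        refine ⟨⟨a, ⟨z, ha.symm⟩⟩, hι'inj ?_⟩
        rw [hρ]
        exact ha
      · intro a
        have h1 : ρ a = 0 ↔ π (a : A) = 0 := by
          rw [← hρ a]
          constructor
          · intro h
            rw [h, map_zero]
          · intro h
            exact hι'inj (by rw [h, map_zero])
        rw [h1, hex]
        constructor
        · rintro ⟨y, hy⟩
          exact ⟨y, Subtype.ext hy⟩
        · rintro ⟨y, hy⟩
          exact ⟨y, congrArg Subtype.val hy⟩
    have hWcls : Cls 𝒞 W := by
      refine ⟨hWI.sub, inferInstance, NonUnitalStarSubalgebraClass.subtype hWI.sub, ?_, ?_, hC⟩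
      · exact Subtype.val_injective
      · ext y
        constructor
        · rintro ⟨z, rfl⟩
          exact z.2
        · intro hy
          exact ⟨⟨y, hy⟩, rfl⟩
    have hWJ : W ≤ J := hmax ⟨hWI, hWcls⟩ hJW
    obtain ⟨z, hz⟩ := exists_ne (0 : J')
    obtain ⟨a, ha⟩ := hπs (ι' z)
    have haW : a ∈ W := ⟨z, ha.symm⟩
    have := (hπk a).2 (hWJ haW)
    rw [ha] at this
    exact hz (hι'inj (by rw [this, map_zero]))

end Pool.Agent.Helper90.Uct
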